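import Pool.Agent.Q240.EX.Stm4
import Pool.Agent.Q177.CD2.Rep
import Pool.Agent.Q237.CD.Near
import Pool.Agent.Q240.CD.RepInv

set_option autoImplicit false

/-!
# Project EX, job Thr: the threshold `n / a² → ∞` is sharp
-/

open Polynomial Filter Topology Finset MeasureTheory
open Pool.Agent.Q240.CD Pool.Agent.Q240.EX

namespace Pool.Agent.Q224.EX

/-- a polynomial with real zeros is at least as large at `-i` as at `0` -/
lemma norm_eval_ge (P : ℂ[X]) (hP : ∀ z : ℂ, P.eval z = 0 → z.im = 0) :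
    ‖P.eval 0‖ ≤ ‖P.eval (-Complex.I)‖ := by
  by_cases hP0 : P = 0
  · simp [hP0]
  have he := (IsAlgClosed.splits P).eq_prod_roots
  have hr : ∀ r ∈ P.roots, r.im = 0 := fun r hr => hP r ((mem_roots hP0).1 hr)
  have key : ∀ s : Multiset ℂ, (∀ r ∈ s, r.im = 0) →
      ‖((s.map fun r => X - C r).prod).eval 0‖ ≤
        ‖((s.map fun r => X - C r).prod).eval (-Complex.I)‖ := by
    intro s
    induction s using Multiset.induction_on with
    | empty => simp
    | cons r s ih =>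
      intro hs
      rw [Multiset.map_cons, Multiset.prod_cons, eval_mul, eval_mul, norm_mul, norm_mul]
      have h2 : r = ((r.re : ℝ) : ℂ) := by
        apply Complex.ext
        · simp
        · simp [hs r (Multiset.mem_cons_self r s)]
      refine mul_le_mul ?_ (ih fun t ht => hs t (Multiset.mem_cons_of_mem ht)) (norm_nonneg _)
        (norm_nonneg _)
      rw [eval_sub, eval_X, eval_C, eval_sub, eval_X, eval_C]
      have h3 : ‖(0 : ℂ) - r‖ = |(-Complex.I - r).re| := by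
        rw [zero_sub, norm_neg, h2, Complex.norm_real, Real.norm_eq_abs]
        simp
      rw [h3]
      exact Complex.abs_re_le_norm _
  rw [he, eval_mul, eval_mul, norm_mul, norm_mul, eval_C, eval_C]
  exact mul_le_mul_of_nonneg_left (key _ hr) (norm_nonneg _)

/-- the product `S` is large at `-i` -/
lemma Sp_re (a : ℝ) (n : ℕ) :
    1 + a ^ 2 / (Real.pi ^ 2 * (n + 1)) ≤ (Sp a n (-Complex.I)).re := by
  have hpi := Real.pi_pos
  have h1 := Pool.Agent.Q237.CD.Sp_tendsto a n (-Complex.I)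
  have h2 := (Complex.continuous_re.tendsto _).comp h1
  have h3 : ∀ N : ℕ, 1 + a ^ 2 / Real.pi ^ 2 * (1 / ((n : ℝ) + 1) - 1 / ((n : ℝ) + 1 + N)) ≤
      (Complex.re ∘ fun N => ∏ k ∈ range N,
        (1 - (-Complex.I) ^ 2 * (Pool.Agent.Q237.CD.bk a n k : ℂ))) N := by
    intro N
    have h4 : (∏ k ∈ range N, (1 - (-Complex.I) ^ 2 * (Pool.Agent.Q237.CD.bk a n k : ℂ))) =
        ((∏ k ∈ range N, (1 + Pool.Agent.Q237.CD.bk a n k) : ℝ) : ℂ) := by
      push_cast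
      refine prod_congr rfl fun k _ => ?_
      rw [neg_sq, Complex.I_sq]
      ring
    have h5 : 1 + ∑ k ∈ range N, Pool.Agent.Q237.CD.bk a n k ≤
        ∏ k ∈ range N, (1 + Pool.Agent.Q237.CD.bk a n k) := by
      induction N with
      | zero => simp
      | succ N ih =>
        have ih' := ih (by
          push_cast
          refine prod_congr rfl fun k _ => ?_
          rw [neg_sq, Complex.I_sq]
          ring)
        rw [sum_range_succ, prod_range_succ]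
        have hb := Pool.Agent.Q237.CD.bk_nonneg a n N
        have hs : 0 ≤ ∑ k ∈ range N, Pool.Agent.Q237.CD.bk a n k :=
          sum_nonneg fun k _ => Pool.Agent.Q237.CD.bk_nonneg a n k
        nlinarith [mul_nonneg hs hb, mul_le_mul_of_nonneg_right ih' hb]
    have h6 : ∀ N : ℕ, a ^ 2 / Real.pi ^ 2 * (1 / ((n : ℝ) + 1) - 1 / ((n : ℝ) + 1 + N)) ≤
        ∑ k ∈ range N, Pool.Agent.Q237.CD.bk a n k := by
      intro N
      induction N with
      | zero => simp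
      | succ N ih =>
        rw [sum_range_succ, Pool.Agent.Q237.CD.bk_eq]
        have h7 : a ^ 2 / Real.pi ^ 2 * (1 / ((n : ℝ) + 1 + N) - 1 / ((n : ℝ) + 1 + (N + 1 : ℕ))) ≤
            a ^ 2 / Real.pi ^ 2 * (1 / ((n : ℝ) + 1 + N) ^ 2) := by
          apply mul_le_mul_of_nonneg_left _ (by positivity)
          have hx : (0 : ℝ) < (n : ℝ) + 1 + N := by positivity
          push_cast
          rw [div_sub_div _ _ (by positivity) (by positivity), div_le_div_iff₀ (by positivity) (by positivity)]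
          nlinarith
        nlinarith
    show _ ≤ (∏ k ∈ range N, (1 - (-Complex.I) ^ 2 * (Pool.Agent.Q237.CD.bk a n k : ℂ))).re
    rw [h4, Complex.ofReal_re]
    linarith [h6 N]
  have h7 : Tendsto (fun N : ℕ => 1 + a ^ 2 / Real.pi ^ 2 * (1 / ((n : ℝ) + 1) - 1 / ((n : ℝ) + 1 + N)))
      atTop (𝓝 (1 + a ^ 2 / Real.pi ^ 2 * (1 / ((n : ℝ) + 1) - 0))) := by
    refine Tendsto.const_add _ (Tendsto.const_mul _ (Tendsto.const_sub _ ?_))
    have h8 : Tendsto (fun N : ℕ => (n : ℝ) + 1 + N) atTop atTop :=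
      tendsto_atTop_add_const_left _ _ tendsto_natCast_atTop_atTop
    exact h8.const_div_atTop 1
  have h8 := le_of_tendsto_of_tendsto' h7 h2 h3
  have h9 : a ^ 2 / (Real.pi ^ 2 * (n + 1)) = a ^ 2 / Real.pi ^ 2 * (1 / ((n : ℝ) + 1) - 0) := by
    rw [sub_zero, div_mul_div_comm, mul_one]
  rw [h9]
  exact h8

/-- `∑ 1 / γ_j²` converges -/
lemma sum_inv {γ : ℕ → ℝ} (hγ : EN γ) : Summable fun j => 1 / γ j ^ 2 := by
  have hp : ∀ j, 0 < γ j := fun j => lt_of_lt_of_le hγ.pos (hγ.mono.monotone (Nat.zero_le j))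
  have h0 : 0 < γ 0 ^ 2 := pow_pos hγ.pos 2
  have h1 := hγ.sum.mul_left ((γ 0 ^ 2) ^ (-(1 / 8 : ℝ)))
  refine Summable.of_nonneg_of_le (fun j => by positivity) (fun j => ?_) h1
  have hj : 0 < γ j ^ 2 := pow_pos (hp j) 2
  have h2 : γ 0 ^ 2 ≤ γ j ^ 2 := pow_le_pow_left₀ hγ.pos.le (hγ.mono.monotone (Nat.zero_le j)) 2
  have h3 : (γ j ^ 2) ^ (-(1 / 8 : ℝ)) ≤ (γ 0 ^ 2) ^ (-(1 / 8 : ℝ)) :=
    Real.rpow_le_rpow_of_nonpos h0 h2 (by norm_num)
  have h4 : 1 / γ j ^ 2 = (γ j ^ 2) ^ (-(1 / 8 : ℝ)) * (1 / (γ j ^ 2) ^ (7 / 8 : ℝ)) := by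
    rw [one_div ((γ j ^ 2) ^ (7 / 8 : ℝ)), ← Real.rpow_neg hj.le, ← Real.rpow_add hj, one_div, ← Real.rpow_neg_one]
    norm_num
  rw [h4]
  have h5 : (1 : ℝ) ≤ (mz (γ j : ℂ) : ℝ) := by exact_mod_cast hγ.m1 j
  have h6 : 1 / (γ j ^ 2) ^ (7 / 8 : ℝ) ≤ (mz (γ j : ℂ) : ℝ) / (γ j ^ 2) ^ (7 / 8 : ℝ) := by
    apply div_le_div_of_nonneg_right h5
    positivity
  exact mul_le_mul h3 h6 (by positivity) (by positivity)

/-- **Thr** -/
theorem thr (hUZ : S_UZc) (hXP : S_XtP) : S_Thr := by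
  intro hRH γ hγ n f hf hlim
  have hspB : S_SpB := Pool.Agent.Q237.CD.spB
  have hrep : S_Rep := Pool.Agent.Q177.CD2.rep hspB (repInv hspB)
  have hpi := Real.pi_pos
  have hpt : Tendsto (fun a => Y23.TT (f a) (Complex.I * (-Complex.I))) atTop
      (𝓝 (GC (fun j => γ j ^ 2) ((-Complex.I) ^ 2))) := by
    rw [Metric.tendsto_nhds]
    intro ε hε
    obtain ⟨t, ht, h⟩ := hlim {p | dist p.1 p.2 < ε} (Metric.dist_mem_uniformity hε) (-Complex.I)
    filter_upwards [h] with a ha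
    have h1 := ha _ (mem_of_mem_nhds ht)
    rw [dist_comm]
    exact h1
  have hG0 : GC (fun j => γ j ^ 2) ((-Complex.I) ^ 2) ≠ 0 := by
    have hp : ∀ j, 0 < γ j := fun j => lt_of_lt_of_le hγ.pos (hγ.mono.monotone (Nat.zero_le j))
    have hg : StrictMono (fun j => γ j ^ 2) := fun i j hij =>
      pow_lt_pow_left₀ (hγ.mono hij) (hp i).le two_ne_zero
    obtain ⟨_, _, h3, _⟩ := Pool.Agent.Q237.CD.gcb (fun j => γ j ^ 2) hg (pow_pos hγ.pos 2) (sum_inv hγ)
    intro h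
    obtain ⟨j, hj⟩ := (h3 _).1 h
    have h4 := congrArg Complex.re hj
    rw [neg_sq, Complex.I_sq, Complex.ofReal_re, Complex.neg_re, Complex.one_re] at h4
    have h5 := pow_pos (hp j) 2
    linarith
  generalize hGdef : GC (fun j => γ j ^ 2) ((-Complex.I) ^ 2) = G at hpt hG0
  have hGn : 0 < ‖G‖ := norm_pos_iff.2 hG0
  rw [tendsto_atTop]
  intro C'
  obtain ⟨K, hK1, hKC⟩ : ∃ K : ℝ, 1 ≤ K ∧ C' ≤ K := ⟨max C' 1, le_max_right _ _, le_max_left _ _⟩
  obtain ⟨M, hM⟩ : ∃ M : ℝ, M = ‖G‖ + 1 := ⟨_, rfl⟩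
  have hM0 : 0 < M := by rw [hM]; positivity
  obtain ⟨c, hc⟩ : ∃ c : ℝ, c = 1 / (2 * Real.pi ^ 2 * M) := ⟨_, rfl⟩
  have hc0 : 0 < c := by rw [hc]; positivity
  obtain ⟨c₁, hc₁⟩ : ∃ c₁ : ℝ, c₁ = 1 / (Real.pi ^ 2 * (K + 1)) := ⟨_, rfl⟩
  have hc₁0 : 0 < c₁ := by rw [hc₁]; positivity
  obtain ⟨η, hη⟩ : ∃ η : ℝ, η = ‖G‖ * c₁ / 4 := ⟨_, rfl⟩
  have hη0 : 0 < η := by rw [hη]; positivity
  have e1 : ∀ᶠ a in atTop, ‖Y23.TT (f a) (Complex.I * (-Complex.I)) - G‖ < min η 1 := by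
    have := Metric.tendsto_nhds.1 hpt (min η 1) (lt_min hη0 one_pos)
    simpa only [dist_eq_norm] using this
  have e2 := hUZ hRH γ hγ c hc0 1 (η ^ 2) (by positivity)
  rw [Lc, Filter.eventually_inf_principal, Filter.eventually_comap] at e2
  filter_upwards [hf, e1, e2, eventually_ge_atTop 1, eventually_ge_atTop (1 / c)] with a hXt h1 h2 ha1 hac
  by_contra hcon
  push Not at hcon
  have ha0 : 0 < a := by linarith
  have ha2 : 1 ≤ a ^ 2 := by nlinarith
  have hn : (n a : ℝ) < K * a ^ 2 := by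
    rw [div_lt_iff₀ (by positivity)] at hcon
    nlinarith
  have hca : 1 ≤ c * a ^ 2 := by
    have h3 : 1 ≤ c * a := by
      rw [div_le_iff₀ hc0] at hac
      linarith
    nlinarith
  obtain ⟨hQ, _, _, _, hzer, _⟩ := hXP hRH a (n a) (f a) ha0 hXt
  obtain ⟨P, hPd, hP⟩ := hrep a (n a) (f a) ha0 hXt.1
  have hS0 : Sp a (n a) 0 = 1 := (hspB a (n a)).2.2.1
  have hP0 : P.eval 0 = 1 := by
    have h3 := hP 0
    rw [mul_zero, hXt.2.1, hS0, mul_one] at h3
    exact h3.symm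
  have hPz : ∀ z : ℂ, P.eval z = 0 → z.im = 0 := by
    intro z hz
    have h3 := hP z
    rw [hz, zero_mul] at h3
    have h4 := hzer _ h3
    simpa using h4
  have hP1 : 1 ≤ ‖P.eval (-Complex.I)‖ := by
    have h3 := norm_eval_ge P hPz
    rwa [hP0, norm_one] at h3
  have hSre := Sp_re a (n a)
  have hSn : (Sp a (n a) (-Complex.I)).re ≤ ‖Sp a (n a) (-Complex.I)‖ := Complex.re_le_norm _
  have hnn : (0 : ℝ) ≤ n a := Nat.cast_nonneg _
  rcases lt_or_ge ((n a : ℕ) : ℝ) (c * a ^ 2) with hlt | hge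
  · -- small degree
    have h3 : M ≤ a ^ 2 / (Real.pi ^ 2 * ((n a : ℝ) + 1)) := by
      rw [le_div_iff₀ (by positivity)]
      have h4 : (n a : ℝ) + 1 ≤ 2 * (c * a ^ 2) := by linarith
      have h5 : M * (Real.pi ^ 2 * ((n a : ℝ) + 1)) ≤ M * (Real.pi ^ 2 * (2 * (c * a ^ 2))) := by
        gcongr
      have h6 : M * (Real.pi ^ 2 * (2 * (c * a ^ 2))) = a ^ 2 := by
        rw [hc]
        field_simp
      linarith
    have h4 : ‖Y23.TT (f a) (Complex.I * (-Complex.I))‖ < ‖G‖ + 1 := by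
      have h5 := norm_le_norm_add_norm_sub' (Y23.TT (f a) (Complex.I * (-Complex.I))) G
      have h6 := lt_of_lt_of_le h1 (min_le_right _ _)
      linarith
    rw [hP, norm_mul] at h4
    have h5 : ‖Sp a (n a) (-Complex.I)‖ ≤ ‖P.eval (-Complex.I)‖ * ‖Sp a (n a) (-Complex.I)‖ :=
      le_mul_of_one_le_left (norm_nonneg _) hP1
    linarith
  · -- large degree
    have h3 : ⌈c * a ^ 2⌉₊ ≤ n a := Nat.ceil_le.2 hge
    have h4 := h2 (a, n a) rfl h3 (Y23.QQ (f a)) hXt.2.2 (f a) hXt.1 (-Complex.I) (by simp)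
    rw [hXt.2.1, one_mul, hGdef] at h4
    simp only at h4
    have h5 : ‖Y23.TT (f a) (Complex.I * (-Complex.I)) - G * Sp a (n a) (-Complex.I)‖ ^ 2 ≤ η ^ 2 := by
      by_contra h6
      push Not at h6
      have h7 := mul_lt_mul_of_pos_left h6 hQ
      linarith
    have h6 : ‖Y23.TT (f a) (Complex.I * (-Complex.I)) - G * Sp a (n a) (-Complex.I)‖ ≤ η :=
      le_of_sq_le_sq h5 hη0.le
    have h7 := lt_of_lt_of_le h1 (min_le_left _ _)
    have h8 : ‖G * (Sp a (n a) (-Complex.I) - 1)‖ ≤ 2 * η := by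
      have h9 : G * (Sp a (n a) (-Complex.I) - 1) =
          (Y23.TT (f a) (Complex.I * (-Complex.I)) - G) -
            (Y23.TT (f a) (Complex.I * (-Complex.I)) - G * Sp a (n a) (-Complex.I)) := by ring
      rw [h9]
      refine (norm_sub_le _ _).trans ?_
      linarith
    rw [norm_mul] at h8
    have h9 : c₁ ≤ ‖Sp a (n a) (-Complex.I) - 1‖ := by
      have h10 : (Sp a (n a) (-Complex.I) - 1).re ≤ ‖Sp a (n a) (-Complex.I) - 1‖ := Complex.re_le_norm _
      rw [Complex.sub_re, Complex.one_re] at h10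
      have h11 : c₁ ≤ a ^ 2 / (Real.pi ^ 2 * ((n a : ℝ) + 1)) := by
        rw [hc₁, div_le_div_iff₀ (by positivity) (by positivity), one_mul]
        have h12 : (n a : ℝ) + 1 ≤ (K + 1) * a ^ 2 := by nlinarith
        calc Real.pi ^ 2 * ((n a : ℝ) + 1) ≤ Real.pi ^ 2 * ((K + 1) * a ^ 2) := by gcongr
          _ = a ^ 2 * (Real.pi ^ 2 * (K + 1)) := by ring
      linarith
    have h10 : ‖G‖ * c₁ ≤ 2 * η := (mul_le_mul_of_nonneg_left h9 hGn.le).trans h8
    have h11 : 0 < ‖G‖ * c₁ := mul_pos hGn hc₁0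
    rw [hη] at h10
    linarith

end Pool.Agent.Q224.EX
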